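import Pool.Agent.W622.SC.Stmts

/-! # S_push: paths in `K ∨ Σ²Q` with end points in `K` can be deformed into `K` -/

set_option autoImplicit false

open unitInterval Topology ContinuousMap

namespace Pool.Agent.W930.SC.Push

open Pool.Agent.W622.SC

noncomputable section

/-- clamp a real number to the unit interval -/
def cl (r : ℝ) : I := Set.projIcc 0 1 zero_le_one r

@[fun_prop]
theorem continuous_cl : Continuous cl := continuous_projIcc (h := zero_le_one)

theorem cl_coe (u : I) : cl (u : ℝ) = u := by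
  unfold cl
  exact Set.projIcc_val _ u

theorem cl_of_ge {r : ℝ} (h : 1 ≤ r) : cl r = 1 := Set.projIcc_of_right_le _ h

theorem cl_of_le {r : ℝ} (h : r ≤ 0) : cl r = 0 := Set.projIcc_of_le_left _ h

/-- General square lemma. -/
theorem square {X : Type} [TopologicalSpace X] (H : C(I × I, X)) {a b a' b' : X}
    (α : Path a b) (β : Path a' b') (c : Path a a') (d : Path b b')
    (h0 : ∀ s, H (0, s) = α s)
    (h1 : ∀ s, H (1, s) = β s) (hl : ∀ t, H (t, 0) = c t) (hr : ∀ t, H (t, 1) = d t) :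
    (α.trans d).Homotopic (c.trans β) := by
  let f0 : C(I, X) := ⟨fun s => H (0, s), by fun_prop⟩
  let f1 : C(I, X) := ⟨fun s => H (1, s), by fun_prop⟩
  let F : f0.Homotopy f1 := ⟨H, fun _ => rfl, fun _ => rfl⟩
  have key := (Path.Homotopic.map_trans_evalAt F Path.id).pathCast
    (show a = f0 0 from by change a = H (0, 0); rw [h0]; simp)
    (show b' = f1 1 from by change b' = H (1, 1); rw [h1]; simp)
  refine Path.Homotopic.trans (Path.Homotopic.trans ?_ key) ?_
  · refine ⟨Path.Homotopy.cast (Path.Homotopy.refl _) rfl ?_⟩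
    ext s
    simp only [Path.trans_apply, Path.cast_coe]
    split_ifs with h
    · exact (h0 _).symm
    · exact (hr _).symm
  · refine ⟨Path.Homotopy.cast (Path.Homotopy.refl _) rfl ?_⟩
    ext s
    simp only [Path.trans_apply, Path.cast_coe]
    split_ifs with h
    · exact hl _
    · exact h1 _

/-- the reparametrisation of the first suspension coordinate -/
def phi (r s t : I) : I := cl ((t : ℝ) + (s : ℝ) * (5 * t - (1 + 3 * r)))

/-- the dilation of the second suspension coordinate -/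
def dil (s t : I) : I := cl (1 / 2 + (1 + (s : ℝ)) * ((t : ℝ) - 1 / 2))

theorem phi_s0 (r t : I) : phi r 0 t = t := by
  unfold phi
  rw [Set.Icc.coe_zero, zero_mul, add_zero, cl_coe]

theorem phi_t0 (r s : I) : phi r s 0 = 0 := by
  unfold phi
  apply cl_of_le
  have := s.2.1
  have := r.2.1
  simp only [Set.Icc.coe_zero]
  nlinarith

theorem phi_t1 (r s : I) : phi r s 1 = 1 := by
  unfold phi
  apply cl_of_ge
  have := s.2.1
  have := r.2.1
  have := r.2.2
  simp only [Set.Icc.coe_one]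
  nlinarith

theorem dil_s0 (t : I) : dil 0 t = t := by
  unfold dil
  rw [Set.Icc.coe_zero, show (1 / 2 + (1 + (0 : ℝ)) * ((t : ℝ) - 1 / 2)) = t by ring, cl_coe]

theorem dil_t0 (s : I) : dil s 0 = 0 := by
  unfold dil
  apply cl_of_le
  have := s.2.1
  simp only [Set.Icc.coe_zero]
  linarith

theorem dil_t1 (s : I) : dil s 1 = 1 := by
  unfold dil
  apply cl_of_ge
  have := s.2.1
  simp only [Set.Icc.coe_one]
  linarith

variable {Q : Type} [TopologicalSpace Q] {q0 : Q}

/-- The master map. -/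
def Ph (W : WP Q q0) : C((I × I × I) × ((Fin 2 → I) × Q), (Fin 2 → I) × Q) where
  toFun p := (![phi p.1.1 p.1.2.1 (p.2.1 0), p.1.2.2 * dil p.1.2.1 (p.2.1 1)],
    W.lam (p.1.2.1, p.2.2))
  continuous_toFun := by
    apply Continuous.prodMk
    · apply continuous_pi
      intro i
      fin_cases i
      · change Continuous fun p : (I × I × I) × ((Fin 2 → I) × Q) => phi p.1.1 p.1.2.1 (p.2.1 0)
        unfold phi
        fun_prop
      · change Continuous fun p : (I × I × I) × ((Fin 2 → I) × Q) =>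
          p.1.2.2 * dil p.1.2.1 (p.2.1 1)
        unfold dil
        fun_prop
    · fun_prop

theorem Ph_apply (W : WP Q q0) (r s b : I) (t : Fin 2 → I) (q : Q) :
    Ph W ((r, s, b), (t, q)) = (![phi r s (t 0), b * dil s (t 1)], W.lam (s, q)) := rfl

omit [TopologicalSpace Q] in
theorem bad_iff {t : Fin 2 → I} {q : Q} :
    S2bad q0 (t, q) ↔ (t 0 = 0 ∨ t 0 = 1) ∨ (t 1 = 0 ∨ t 1 = 1) ∨ q = q0 := by
  unfold S2bad Cube.boundary
  simp only [Set.mem_ofPred_eq, Fin.exists_fin_two]
  tauto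

theorem bad_Ph (W : WP Q q0) (r s b : I) (t : Fin 2 → I) (q : Q) :
    S2bad q0 (Ph W ((r, s, b), (t, q))) ↔ (phi r s (t 0) = 0 ∨ phi r s (t 0) = 1) ∨
      (b * dil s (t 1) = 0 ∨ b * dil s (t 1) = 1) ∨ W.lam (s, q) = q0 := by
  rw [Ph_apply, bad_iff]
  rfl

theorem Ph_bad (W : WP Q q0) (r s : I) (t : Fin 2 → I) (q : Q) (h : S2bad q0 (t, q)) :
    S2bad q0 (Ph W ((r, s, 1), (t, q))) := by
  rw [bad_Ph]
  rcases bad_iff.mp h with (h | h) | (h | h) | h
  · left; left; rw [h, phi_t0]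
  · left; right; rw [h, phi_t1]
  · right; left; left; rw [h, dil_t0, mul_zero]
  · right; left; right; rw [h, dil_t1, mul_one]
  · right; right; rw [h, W.lam_base]

/-- the deformation of the double suspension -/
def SD (W : WP Q q0) (r : I) : C(I × S2 q0, S2 q0) :=
  S2.liftH ⟨fun p => S2.mk q0 (Ph W ((r, p.1, 1), p.2)), by fun_prop⟩
    (ContinuousMap.const _ (S2.pt q0)) (by
      rintro s ⟨t, q⟩ h
      exact S2.mk_bad (Ph_bad W r s t q h))

theorem SD_mk (W : WP Q q0) (r s : I) (x : (Fin 2 → I) × Q) :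
    SD W r (s, S2.mk q0 x) = S2.mk q0 (Ph W ((r, s, 1), x)) := rfl

theorem SD_pt (W : WP Q q0) (r s : I) : SD W r (s, S2.pt q0) = S2.pt q0 :=
  S2.liftH_pt _ _ _ _

theorem SD_zero (W : WP Q q0) (r : I) (p : S2 q0) : SD W r (0, p) = p := by
  obtain ⟨⟨t, q⟩, rfl⟩ := S2.mk_surj q0 p
  rw [SD_mk, Ph_apply, phi_s0, dil_s0, one_mul, W.lam_zero]
  congr 2
  ext i
  fin_cases i <;> rfl

variable {K : Type} [TopologicalSpace K] (k0 : K)

/-- the attaching map of the wedge -/
abbrev ee : C(Unit, K) := ⟨fun _ => k0, continuous_const⟩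

/-- the deformation of the wedge -/
def D (W : WP Q q0) (r : I) : C(I × Wg k0 (S2.pt q0), Wg k0 (S2.pt q0)) :=
  At.liftH ⟨fun p => At.inK (ee k0) (S2.pt q0) p.2, by fun_prop⟩
    ⟨fun p => At.inP (ee k0) (S2.pt q0) ((), SD W r (p.1, p.2.2)), by fun_prop⟩ (by
      intro s c
      change At.inP (ee k0) (S2.pt q0) ((), SD W r (s, S2.pt q0)) =
        At.inK (ee k0) (S2.pt q0) k0
      rw [SD_pt, At.glue]
      rfl)

theorem D_inK (W : WP Q q0) (r s : I) (k : K) :
    D k0 W r (s, At.inK (ee k0) (S2.pt q0) k) = At.inK (ee k0) (S2.pt q0) k := rfl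

theorem D_inP (W : WP Q q0) (r s : I) (x : (Fin 2 → I) × Q) :
    D k0 W r (s, At.inP (ee k0) (S2.pt q0) ((), S2.mk q0 x)) =
      At.inP (ee k0) (S2.pt q0) ((), S2.mk q0 (Ph W ((r, s, 1), x))) := rfl

theorem D_zero (W : WP Q q0) (r : I) (z : Wg k0 (S2.pt q0)) : D k0 W r (0, z) = z := by
  revert z
  refine At.ind ?_ ?_
  · intro k
    rfl
  · intro c p
    change At.inP (ee k0) (S2.pt q0) ((), SD W r (0, p)) = _
    rw [SD_zero]

/-- the retraction followed by the inclusion -/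
def rr : C(Wg k0 (S2.pt q0), Wg k0 (S2.pt q0)) := (At.inK _ _).comp (At.ret _ _)

theorem rr_inK (k : K) : rr k0 (At.inK (ee k0) (S2.pt q0) k) = At.inK (ee k0) (S2.pt q0) k := rfl

theorem rr_inP (p : S2 q0) : rr k0 (At.inP (ee k0) (S2.pt q0) ((), p)) =
    At.inK (ee k0) (S2.pt q0) k0 := rfl

theorem inP_eq (x : (Fin 2 → I) × Q) :
    At.inP (ee k0) (S2.pt q0) ((), S2.mk q0 x) = At.inK (ee k0) (S2.pt q0) k0 ↔ S2bad q0 x := by
  rw [At.inP_eq_inK_iff, S2.mk_eq_pt_iff]
  exact ⟨fun h => h.1, fun h => ⟨h, rfl⟩⟩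

/-- the trajectory of a point -/
def tau (W : WP Q q0) (r : I) (z : Wg k0 (S2.pt q0)) (h : D k0 W r (1, z) = rr k0 z) :
    Path z (rr k0 z) :=
  ⟨⟨fun s => D k0 W r (s, z), by fun_prop⟩, D_zero k0 W r z, h⟩

theorem tau_apply (W : WP Q q0) (r : I) (z : Wg k0 (S2.pt q0)) (h : D k0 W r (1, z) = rr k0 z)
    (s : I) : tau k0 W r z h s = D k0 W r (s, z) := rfl

theorem sq_refl {X : Type} [TopologicalSpace X] (H : C(I × I, X)) {a b : X}
    (α β : Path a b)
    (h0 : ∀ s, H (0, s) = α s)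
    (h1 : ∀ s, H (1, s) = β s) (hl : ∀ t, H (t, 0) = a) (hr : ∀ t, H (t, 1) = b) :
    α.Homotopic β := by
  have := square H α β (Path.refl a) (Path.refl b) h0 h1 hl hr
  exact (Path.Homotopic.symm ⟨Path.Homotopy.transRefl α⟩).trans
    (this.trans ⟨Path.Homotopy.reflTrans β⟩)

theorem sq_refl' {X : Type} [TopologicalSpace X] (H : C(I × I, X)) {a b : X}
    (α β : Path a b)
    (h0 : ∀ s, H (0, s) = α s)
    (h1 : ∀ s, H (1, s) = b) (hl : ∀ t, H (t, 0) = β t) (hr : ∀ t, H (t, 1) = b) :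
    α.Homotopic β := by
  have := square H α (Path.refl b) β (Path.refl b) h0 h1 hl hr
  exact (Path.Homotopic.symm ⟨Path.Homotopy.transRefl α⟩).trans
    (this.trans ⟨Path.Homotopy.transRefl β⟩)

/-- the downward path of a point of the suspension -/
def cz (t : Fin 2 → I) (q : Q) : Path (At.inP (ee k0) (S2.pt q0) ((), S2.mk q0 (t, q)))
    (rr k0 (At.inP (ee k0) (S2.pt q0) ((), S2.mk q0 (t, q)))) :=
  ⟨⟨fun b => At.inP (ee k0) (S2.pt q0) ((), S2.mk q0 (![t 0, (unitInterval.symm b) * t 1], q)), by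
    have : Continuous fun b : I => (![t 0, (unitInterval.symm b) * t 1] : Fin 2 → I) := by
      apply continuous_pi
      intro i
      fin_cases i
      · exact continuous_const
      · change Continuous fun b : I => (unitInterval.symm b) * t 1
        fun_prop
    fun_prop⟩, by
    change At.inP (ee k0) (S2.pt q0) ((), S2.mk q0 (![t 0, (unitInterval.symm 0) * t 1], q)) = _
    rw [unitInterval.symm_zero, one_mul]
    congr 4
    ext i
    fin_cases i <;> rfl, by
    change At.inP (ee k0) (S2.pt q0) ((), S2.mk q0 (![t 0, (unitInterval.symm 1) * t 1], q)) = _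
    rw [rr_inP, unitInterval.symm_one, zero_mul, inP_eq, bad_iff]
    right; left; left
    rfl⟩

theorem lemA (W : WP Q q0) (r : I) (t : Fin 2 → I) (q : Q)
    (h : D k0 W r (1, At.inP (ee k0) (S2.pt q0) ((), S2.mk q0 (t, q))) = rr k0 _)
    (hp : phi r 1 (t 0) = 0 ∨ phi r 1 (t 0) = 1) :
    (tau k0 W r _ h).Homotopic (cz k0 t q) := by
  refine sq_refl' ⟨fun p => At.inP (ee k0) (S2.pt q0) ((), S2.mk q0
    (Ph W ((r, p.2, unitInterval.symm p.1), (t, q)))), by fun_prop⟩ _ _ ?_ ?_ ?_ ?_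
  · intro s
    change At.inP (ee k0) (S2.pt q0) ((), S2.mk q0
      (Ph W ((r, s, unitInterval.symm 0), (t, q)))) = _
    rw [unitInterval.symm_zero, tau_apply, D_inP]
  · intro s
    change At.inP (ee k0) (S2.pt q0) ((), S2.mk q0
      (Ph W ((r, s, unitInterval.symm 1), (t, q)))) = _
    rw [unitInterval.symm_one, rr_inP, inP_eq, bad_Ph]
    right; left; left
    rw [zero_mul]
  · intro b
    change At.inP (ee k0) (S2.pt q0) ((), S2.mk q0
      (Ph W ((r, 0, unitInterval.symm b), (t, q)))) = At.inP (ee k0) (S2.pt q0) ((), S2.mk q0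
        (![t 0, (unitInterval.symm b) * t 1], q))
    rw [Ph_apply, phi_s0, dil_s0, W.lam_zero]
  · intro b
    change At.inP (ee k0) (S2.pt q0) ((), S2.mk q0
      (Ph W ((r, 1, unitInterval.symm b), (t, q)))) = _
    rw [rr_inP, inP_eq, bad_Ph]
    exact Or.inl hp

theorem coherent (W : WP Q q0) (z : Wg k0 (S2.pt q0)) (h : D k0 W 0 (1, z) = rr k0 z)
    (h' : D k0 W 1 (1, z) = rr k0 z) : (tau k0 W 0 z h).Homotopic (tau k0 W 1 z h') := by
  revert z
  refine At.ind ?_ ?_
  · intro k h h'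
    refine ⟨Path.Homotopy.cast (Path.Homotopy.refl _) rfl ?_⟩
    ext s
    rw [tau_apply, tau_apply, D_inK, D_inK]
  · rintro ⟨⟩ p h h'
    obtain ⟨⟨t, q⟩, rfl⟩ := S2.mk_surj q0 p
    have h1 := h
    have h2 := h'
    rw [D_inP, rr_inP, inP_eq, bad_Ph] at h1 h2
    by_cases hc : (1 * dil 1 (t 1) = 0 ∨ 1 * dil 1 (t 1) = 1) ∨ W.lam (1, q) = q0
    · refine sq_refl ⟨fun p => At.inP (ee k0) (S2.pt q0) ((), S2.mk q0
        (Ph W ((p.1, p.2, 1), (t, q)))), by fun_prop⟩ _ _ ?_ ?_ ?_ ?_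
      · intro s
        rw [tau_apply, D_inP]
        rfl
      · intro s
        rw [tau_apply, D_inP]
        rfl
      · intro r
        change At.inP (ee k0) (S2.pt q0) ((), S2.mk q0 (Ph W ((r, 0, 1), (t, q)))) = _
        rw [← D_inP, D_zero]
      · intro r
        change At.inP (ee k0) (S2.pt q0) ((), S2.mk q0 (Ph W ((r, 1, 1), (t, q)))) = _
        rw [rr_inP, inP_eq, bad_Ph]
        exact Or.inr hc
    · have h3 := h1.resolve_right hc
      have h4 := h2.resolve_right hc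
      exact (lemA k0 W 0 t q h h3).trans (lemA k0 W 1 t q h' h4).symm

/-- local naturality -/
theorem natural (W : WP Q q0) (r : I) {a b : Wg k0 (S2.pt q0)} (γ : Path a b)
    (ha : D k0 W r (1, a) = rr k0 a) (hb : D k0 W r (1, b) = rr k0 b)
    (h : ∀ s, D k0 W r (1, γ s) = rr k0 (γ s)) :
    (γ.trans (tau k0 W r b hb)).Homotopic
      ((tau k0 W r a ha).trans (γ.map (rr k0).continuous)) := by
  refine square ⟨fun p => D k0 W r (p.1, γ p.2), by fun_prop⟩ _ _ _ _ ?_ ?_ ?_ ?_
  · intro s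
    exact D_zero k0 W r _
  · intro s
    exact h s
  · intro s
    change D k0 W r (s, γ 0) = D k0 W r (s, a)
    rw [γ.source]
  · intro s
    change D k0 W r (s, γ 1) = D k0 W r (s, b)
    rw [γ.target]

/-- The functions defining the open cover. -/
def u0 (W : WP Q q0) (a b : ℝ) (x : (Fin 2 → I) × Q) : ℝ :=
  min (min (a * (x.1 0 : ℝ)) (b * (1 - (x.1 0 : ℝ))))
    (min (min (4 * (x.1 1 : ℝ)) (4 * (1 - (x.1 1 : ℝ)))) (2 * W.rho x.2))

/-- The functions defining the open cover, on the double suspension. -/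
def u1 (W : WP Q q0) (a b : ℝ) (ha : 0 ≤ a) (hb : 0 ≤ b) : C(S2 q0, ℝ) :=
  S2.lift ⟨u0 W a b, by unfold u0; fun_prop⟩ 0 (by
    rintro ⟨t, q⟩ h
    change u0 W a b (t, q) = 0
    have h00 := (t 0).2.1
    have h01 := (t 0).2.2
    have h10 := (t 1).2.1
    have h11 := (t 1).2.2
    have hr := W.rho_nonneg q
    have e1 : 0 ≤ a * (t 0 : ℝ) := mul_nonneg ha h00
    have e2 : 0 ≤ b * (1 - (t 0 : ℝ)) := mul_nonneg hb (by linarith)
    apply le_antisymm
    · unfold u0
      simp only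
      rcases bad_iff.mp h with (h | h) | (h | h) | h
      · refine (min_le_left _ _).trans ((min_le_left _ _).trans ?_)
        rw [h]; simp
      · refine (min_le_left _ _).trans ((min_le_right _ _).trans ?_)
        rw [h]; simp
      · refine (min_le_right _ _).trans ((min_le_left _ _).trans ((min_le_left _ _).trans ?_))
        rw [h]; simp
      · refine (min_le_right _ _).trans ((min_le_left _ _).trans ((min_le_right _ _).trans ?_))
        rw [h]; simp
      · refine (min_le_right _ _).trans ((min_le_right _ _).trans ?_)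
        rw [(W.rho_eq_zero q).mpr h]; simp
    · unfold u0
      simp only
      refine le_min (le_min e1 e2) (le_min (le_min ?_ ?_) ?_)
      · linarith
      · linarith
      · linarith)

/-- The functions defining the open cover. -/
def u (W : WP Q q0) (a b : ℝ) (ha : 0 ≤ a) (hb : 0 ≤ b) : C(Wg k0 (S2.pt q0), ℝ) :=
  At.lift (ContinuousMap.const _ 0) ⟨fun x => u1 W a b ha hb x.2, by fun_prop⟩ (by
    intro c
    change u1 W a b ha hb (S2.pt q0) = 0
    unfold u1
    rw [S2.lift_pt])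

theorem u_inK (W : WP Q q0) (a b : ℝ) (ha : 0 ≤ a) (hb : 0 ≤ b) (k : K) :
    u k0 W a b ha hb (At.inK (ee k0) (S2.pt q0) k) = 0 := rfl

theorem u_inP (W : WP Q q0) (a b : ℝ) (ha : 0 ≤ a) (hb : 0 ≤ b) (x : (Fin 2 → I) × Q) :
    u k0 W a b ha hb (At.inP (ee k0) (S2.pt q0) ((), S2.mk q0 x)) = u0 W a b x := rfl

theorem dil_small {t : I} (h : 4 * (t : ℝ) < 1) : dil 1 t = 0 := by
  unfold dil
  apply cl_of_le
  simp only [Set.Icc.coe_one]
  linarith

theorem dil_large {t : I} (h : 4 * (1 - (t : ℝ)) < 1) : dil 1 t = 1 := by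
  unfold dil
  apply cl_of_ge
  simp only [Set.Icc.coe_one]
  linarith

theorem u_lt (W : WP Q q0) (a b : ℝ) (ha : 0 ≤ a) (hb : 0 ≤ b) (r : I)
    (h1 : ∀ t : I, a * (t : ℝ) < 1 → phi r 1 t = 0)
    (h2 : ∀ t : I, b * (1 - (t : ℝ)) < 1 → phi r 1 t = 1)
    (z : Wg k0 (S2.pt q0)) (h : u k0 W a b ha hb z < 1) : D k0 W r (1, z) = rr k0 z := by
  revert z
  refine At.ind ?_ ?_
  · intro k h
    rfl
  · rintro ⟨⟩ p h
    obtain ⟨⟨t, q⟩, rfl⟩ := S2.mk_surj q0 p
    rw [D_inP, rr_inP, inP_eq, bad_Ph]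
    rw [u_inP] at h
    unfold u0 at h
    simp only [min_lt_iff] at h
    rcases h with (h | h) | (h | h) | h
    · left; left; exact h1 _ h
    · left; right; exact h2 _ h
    · right; left; left; rw [dil_small h, mul_zero]
    · right; left; right; rw [dil_large h, mul_one]
    · right; right; exact W.lam_one q (by linarith)

/-- first set -/
abbrev ua (W : WP Q q0) : C(Wg k0 (S2.pt q0), ℝ) :=
  u k0 W 6 (3 / 2) (by norm_num) (by norm_num)

/-- second set -/
abbrev ub (W : WP Q q0) : C(Wg k0 (S2.pt q0), ℝ) :=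
  u k0 W (3 / 2) 6 (by norm_num) (by norm_num)

theorem ua_lt (W : WP Q q0) (z : Wg k0 (S2.pt q0)) (h : ua k0 W z < 1) :
    D k0 W 0 (1, z) = rr k0 z := by
  refine u_lt k0 W 6 (3 / 2) (by norm_num) (by norm_num) 0 ?_ ?_ z h
  · intro t ht
    unfold phi
    apply cl_of_le
    simp only [Set.Icc.coe_one, Set.Icc.coe_zero]
    linarith
  · intro t ht
    unfold phi
    apply cl_of_ge
    simp only [Set.Icc.coe_one, Set.Icc.coe_zero]
    linarith

theorem ub_lt (W : WP Q q0) (z : Wg k0 (S2.pt q0)) (h : ub k0 W z < 1) :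
    D k0 W 1 (1, z) = rr k0 z := by
  refine u_lt k0 W (3 / 2) 6 (by norm_num) (by norm_num) 1 ?_ ?_ z h
  · intro t ht
    unfold phi
    apply cl_of_le
    simp only [Set.Icc.coe_one]
    linarith
  · intro t ht
    unfold phi
    apply cl_of_ge
    simp only [Set.Icc.coe_one]
    linarith

theorem cover (W : WP Q q0) (z : Wg k0 (S2.pt q0)) : ua k0 W z < 1 ∨ ub k0 W z < 1 := by
  revert z
  refine At.ind ?_ ?_
  · intro k
    left
    rw [u_inK]
    norm_num
  · rintro ⟨⟩ p
    obtain ⟨⟨t, q⟩, rfl⟩ := S2.mk_surj q0 p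
    rw [u_inP, u_inP]
    unfold u0
    simp only [min_lt_iff]
    rcases le_or_gt ((t 0 : I) : ℝ) (1 / 2) with h | h
    · right; left; left; linarith
    · left; left; right; linarith

open Classical in
/-- the path from a point to its retraction -/
def th (W : WP Q q0) (z : Wg k0 (S2.pt q0)) : Path z (rr k0 z) :=
  if h : D k0 W 0 (1, z) = rr k0 z then tau k0 W 0 z h
  else tau k0 W 1 z (ub_lt k0 W z ((cover k0 W z).resolve_left fun h' => h (ua_lt k0 W z h')))

theorem th_zero (W : WP Q q0) (z : Wg k0 (S2.pt q0)) (h : D k0 W 0 (1, z) = rr k0 z) :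
    (tau k0 W 0 z h).Homotopic (th k0 W z) := by
  unfold th
  rw [dif_pos h]

theorem th_one (W : WP Q q0) (z : Wg k0 (S2.pt q0)) (h : D k0 W 1 (1, z) = rr k0 z) :
    (tau k0 W 1 z h).Homotopic (th k0 W z) := by
  unfold th
  split_ifs with h'
  · exact (coherent k0 W z h' h).symm
  · exact Path.Homotopic.refl _

/-- naturality -/
def Nat' (W : WP Q q0) {a b : Wg k0 (S2.pt q0)} (γ : Path a b) : Prop :=
  (γ.trans (th k0 W b)).Homotopic ((th k0 W a).trans (γ.map (rr k0).continuous))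

theorem nat_zero (W : WP Q q0) {a b : Wg k0 (S2.pt q0)} (γ : Path a b)
    (h : ∀ s, D k0 W 0 (1, γ s) = rr k0 (γ s)) : Nat' k0 W γ := by
  have ha := h 0
  have hb := h 1
  rw [γ.source] at ha
  rw [γ.target] at hb
  exact (((Path.Homotopic.refl γ).hcomp (th_zero k0 W b hb)).symm.trans
    (natural k0 W 0 γ ha hb h)).trans ((th_zero k0 W a ha).hcomp (Path.Homotopic.refl _))

theorem nat_one (W : WP Q q0) {a b : Wg k0 (S2.pt q0)} (γ : Path a b)
    (h : ∀ s, D k0 W 1 (1, γ s) = rr k0 (γ s)) : Nat' k0 W γ := by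
  have ha := h 0
  have hb := h 1
  rw [γ.source] at ha
  rw [γ.target] at hb
  exact (((Path.Homotopic.refl γ).hcomp (th_one k0 W b hb)).symm.trans
    (natural k0 W 1 γ ha hb h)).trans ((th_one k0 W a ha).hcomp (Path.Homotopic.refl _))

theorem nat_trans (W : WP Q q0) {a b c : Wg k0 (S2.pt q0)} (γ : Path a b) (γ' : Path b c)
    (h : Nat' k0 W γ) (h' : Nat' k0 W γ') : Nat' k0 W (γ.trans γ') := by
  unfold Nat' at *
  rw [Path.map_trans]
  refine Path.Homotopic.trans ⟨Path.Homotopy.transAssoc _ _ _⟩ ?_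
  refine Path.Homotopic.trans ((Path.Homotopic.refl _).hcomp h') ?_
  refine Path.Homotopic.trans (Path.Homotopic.symm ⟨Path.Homotopy.transAssoc _ _ _⟩) ?_
  refine Path.Homotopic.trans (h.hcomp (Path.Homotopic.refl _)) ?_
  exact ⟨Path.Homotopy.transAssoc _ _ _⟩

theorem nat_htpy (W : WP Q q0) {a b : Wg k0 (S2.pt q0)} (γ γ' : Path a b)
    (hh : γ.Homotopic γ') (h : Nat' k0 W γ) : Nat' k0 W γ' := by
  unfold Nat' at *
  refine Path.Homotopic.trans (hh.symm.hcomp (Path.Homotopic.refl _)) (h.trans ?_)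
  exact (Path.Homotopic.refl _).hcomp (hh.map (rr k0))

theorem nat_refl (W : WP Q q0) (a : Wg k0 (S2.pt q0)) : Nat' k0 W (Path.refl a) := by
  unfold Nat'
  have : (Path.refl a).map (rr k0).continuous = Path.refl (rr k0 a) := rfl
  rw [this]
  exact Path.Homotopic.trans ⟨Path.Homotopy.reflTrans _⟩
    (Path.Homotopic.symm ⟨Path.Homotopy.transRefl _⟩)

theorem nat_all (W : WP Q q0) {a b : Wg k0 (S2.pt q0)} (γ : Path a b) : Nat' k0 W γ := by
  obtain ⟨t, ht0, hmono, ⟨n, hn⟩, hcov⟩ :=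
    exists_monotone_Icc_subset_open_cover_unitInterval
      (c := fun i : Bool => {s : I | (if i then ua k0 W (γ s) else ub k0 W (γ s)) < 1})
      (by
        rintro (_ | _)
        · exact isOpen_lt ((ub k0 W).continuous.comp γ.continuous) continuous_const
        · exact isOpen_lt ((ua k0 W).continuous.comp γ.continuous) continuous_const)
      (by
        intro s _
        rw [Set.mem_iUnion]
        rcases cover k0 W (γ s) with h | h
        · exact ⟨true, h⟩
        · exact ⟨false, h⟩)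
  have step : ∀ m, Nat' k0 W (γ.subpath (t m) (t (m + 1))) := by
    intro m
    obtain ⟨i, hi⟩ := hcov m
    have hr : ∀ s, ∃ v ∈ Set.Icc (t m) (t (m + 1)), γ.subpath (t m) (t (m + 1)) s = γ v := by
      intro s
      have : γ.subpath (t m) (t (m + 1)) s ∈ Set.range (γ.subpath (t m) (t (m + 1))) := ⟨s, rfl⟩
      rw [Path.range_subpath_of_le _ _ _ (hmono (Nat.le_succ m))] at this
      obtain ⟨v, hv, hv'⟩ := this
      exact ⟨v, hv, hv'.symm⟩
    cases i
    · apply nat_one
      intro s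
      obtain ⟨v, hv, hv'⟩ := hr s
      rw [hv']
      exact ub_lt k0 W _ (hi hv)
    · apply nat_zero
      intro s
      obtain ⟨v, hv, hv'⟩ := hr s
      rw [hv']
      exact ua_lt k0 W _ (hi hv)
  have all : ∀ m, Nat' k0 W (γ.subpath (t 0) (t m)) := by
    intro m
    induction m with
    | zero =>
      rw [Path.subpath_self]
      exact nat_refl k0 W _
    | succ m ih =>
      exact nat_htpy k0 W _ _ ⟨Path.Homotopy.subpathTransSubpath γ _ _ _⟩
        (nat_trans k0 W _ _ ih (step m))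
  have h1 := all n
  rw [ht0, hn n le_rfl, Path.subpath_zero_one] at h1
  have gen : ∀ (a' b' : Wg k0 (S2.pt q0)) (ha : a' = a) (hb : b' = b),
      Nat' k0 W (γ.cast ha hb) → Nat' k0 W γ := by
    rintro a' b' rfl rfl h
    exact h
  exact gen _ _ _ _ h1

theorem th_inK (W : WP Q q0) (k : K) : (th k0 W (At.inK (ee k0) (S2.pt q0) k)).Homotopic
    (Path.refl (At.inK (ee k0) (S2.pt q0) k)) := by
  have h : D k0 W 0 (1, At.inK (ee k0) (S2.pt q0) k) = rr k0 (At.inK (ee k0) (S2.pt q0) k) := rfl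
  refine (th_zero k0 W _ h).symm.trans ⟨Path.Homotopy.cast (Path.Homotopy.refl _) rfl ?_⟩
  ext s
  rw [tau_apply, D_inK]
  rfl

theorem main : S_push := by
  intro Q _ _ _ q0 W K _ _ k0 x y γ
  refine ⟨γ.map (At.ret (ee k0) (S2.pt q0)).continuous, ?_⟩
  have h := nat_all k0 W γ
  unfold Nat' at h
  have h1 := Path.Homotopic.trans ((Path.Homotopic.refl γ).hcomp (th_inK k0 W y)).symm
    (h.trans ((th_inK k0 W x).hcomp (Path.Homotopic.refl _)))
  exact (Path.Homotopic.symm ⟨Path.Homotopy.transRefl γ⟩).trans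
    (h1.trans ⟨Path.Homotopy.reflTrans _⟩)

end

end Pool.Agent.W930.SC.Push
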