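import Pool.Agent.W622.SC.Stmts

/-! # S_kerZ: loops in the mapping torus which lift to the infinite cyclic cover come from K -/

set_option autoImplicit false

open unitInterval Topology ContinuousMap

namespace Pool.Agent.W930.SC.KerZ

open Pool.Agent.W622.SC

noncomputable section

/-- clamp a real number to the unit interval -/
def cl (r : ℝ) : I := Set.projIcc 0 1 zero_le_one r

theorem continuous_cl : Continuous cl := continuous_projIcc (h := zero_le_one)

theorem cl_one : cl 1 = 1 := by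
  unfold cl
  exact Set.projIcc_right (h := zero_le_one)

theorem cl_zero : cl 0 = 0 := by
  unfold cl
  exact Set.projIcc_left (h := zero_le_one)

theorem cl_coe (u : I) : cl (u : ℝ) = u := by
  unfold cl
  exact Set.projIcc_val _ u

theorem cl_of_ge {r : ℝ} (h : 1 ≤ r) : cl r = 1 := Set.projIcc_of_right_le _ h

theorem cl_of_le {r : ℝ} (h : r ≤ 0) : cl r = 0 := Set.projIcc_of_le_left _ h

theorem coe_cl {r : ℝ} (h0 : 0 ≤ r) (h1 : r ≤ 1) : ((cl r : I) : ℝ) = r := by
  unfold cl
  rw [Set.projIcc_of_mem _ ⟨h0, h1⟩]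

theorem coe_cl' (r : ℝ) : ((cl r : I) : ℝ) = max 0 (min 1 r) := by
  unfold cl
  rw [Set.coe_projIcc]

variable {E : Type} [TopologicalSpace E]

/-- the flow for time at most one, on `E × I` -/
def g0 (f : C(E, E)) : C(I × (E × I), MT f) where
  toFun p := if (p.2.2 : ℝ) + (p.1 : ℝ) ≤ 1 then MT.mk f (p.2.1, cl ((p.2.2 : ℝ) + (p.1 : ℝ)))
    else MT.mk f (f p.2.1, cl ((p.2.2 : ℝ) + (p.1 : ℝ) - 1))
  continuous_toFun := by
    refine Continuous.if_le ?_ ?_ (by fun_prop) (by fun_prop) ?_
    · exact (MT.mk f).continuous.comp ((continuous_fst.comp continuous_snd).prodMk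
        (continuous_cl.comp (by fun_prop)))
    · exact (MT.mk f).continuous.comp ((f.continuous.comp (continuous_fst.comp
        continuous_snd)).prodMk (continuous_cl.comp (by fun_prop)))
    · rintro ⟨t, x, u⟩ h
      simp only at h ⊢
      rw [h, sub_self, cl_one, cl_zero, MT.glue]

theorem g0_apply (f : C(E, E)) (t : I) (x : E) (u : I) : g0 f (t, (x, u)) =
    if (u : ℝ) + (t : ℝ) ≤ 1 then MT.mk f (x, cl ((u : ℝ) + (t : ℝ)))
    else MT.mk f (f x, cl ((u : ℝ) + (t : ℝ) - 1)) := rfl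

/-- the flow for time at most one -/
def G (f : C(E, E)) : C(I × MT f, MT f) := MT.liftH (g0 f) (by
  intro t x
  rw [g0_apply, g0_apply]
  have ht0 : (0 : ℝ) ≤ t := t.2.1
  have ht1 : (t : ℝ) ≤ 1 := t.2.2
  simp only [Set.Icc.coe_one, Set.Icc.coe_zero, zero_add, ht1, if_true]
  split_ifs with h
  · have : (t : ℝ) = 0 := by linarith
    rw [this, add_zero, cl_one, cl_zero, MT.glue]
  · congr 3
    ring)

theorem G_mk (f : C(E, E)) (t : I) (x : E) (u : I) : G f (t, MT.mk f (x, u)) =
    if (u : ℝ) + (t : ℝ) ≤ 1 then MT.mk f (x, cl ((u : ℝ) + (t : ℝ)))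
    else MT.mk f (f x, cl ((u : ℝ) + (t : ℝ) - 1)) := rfl

theorem G_zero (f : C(E, E)) (y : MT f) : G f (0, y) = y := by
  revert y
  refine MT.ind ?_
  intro x u
  rw [G_mk]
  have : (u : ℝ) ≤ 1 := u.2.2
  simp only [Set.Icc.coe_zero, add_zero, this, if_true, cl_coe]

theorem G_one_mk (f : C(E, E)) (x : E) : G f (1, MT.mk f (x, 0)) = MT.mk f (f x, 0) := by
  rw [G_mk]
  simp only [Set.Icc.coe_zero, Set.Icc.coe_one, zero_add, le_refl, if_true, cl_one]
  rw [MT.glue]

/-- naturality -/
theorem down_G (f : C(E, E)) (t : I) (y : MT (lvl f sh)) :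
    MT.down f sh (G (lvl f sh) (t, y)) = G f (t, MT.down f sh y) := by
  revert y
  refine MT.ind ?_
  rintro ⟨x, n⟩ u
  rw [G_mk, MT.down_mk, G_mk]
  split_ifs with h
  · rw [MT.down_mk]
  · rw [lvl_apply, MT.down_mk]

theorem htZ_G (f : C(E, E)) (t : I) (y : MT (lvl f sh)) :
    MT.htZ f (G (lvl f sh) (t, y)) = MT.htZ f y + t := by
  revert y
  refine MT.ind ?_
  rintro ⟨x, n⟩ u
  have ht0 : (0 : ℝ) ≤ t := t.2.1
  have ht1 : (t : ℝ) ≤ 1 := t.2.2
  have hu0 : (0 : ℝ) ≤ u := u.2.1
  have hu1 : (u : ℝ) ≤ 1 := u.2.2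
  rw [G_mk, MT.htZ_mk]
  split_ifs with h
  · rw [MT.htZ_mk, coe_cl (by linarith) h]
    ring
  · rw [lvl_apply, MT.htZ_mk, coe_cl (by linarith) (by linarith)]
    simp only [sh_apply]
    push_cast
    ring

/-- the flow for time `τ` clamped to `[0, k]` -/
def Fl (f : C(E, E)) : ℕ → C(ℝ × MT f, MT f)
  | 0 => ⟨fun p => p.2, continuous_snd⟩
  | k + 1 => ⟨fun p => G f (cl (p.1 - k), Fl f k p), by
      exact (G f).continuous.comp ((continuous_cl.comp (by fun_prop)).prodMk
        (Fl f k).continuous)⟩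

theorem Fl_zero (f : C(E, E)) (p : ℝ × MT f) : Fl f 0 p = p.2 := rfl

theorem Fl_succ (f : C(E, E)) (k : ℕ) (p : ℝ × MT f) :
    Fl f (k + 1) p = G f (cl (p.1 - k), Fl f k p) := rfl

theorem Fl_time_zero (f : C(E, E)) (k : ℕ) (y : MT f) : Fl f k (0, y) = y := by
  induction k with
  | zero => rfl
  | succ k ih =>
    rw [Fl_succ, ih]
    simp only
    rw [cl_of_le (by have : (0 : ℝ) ≤ k := Nat.cast_nonneg k
                     linarith), G_zero]

theorem down_Fl (f : C(E, E)) (k : ℕ) (τ : ℝ) (y : MT (lvl f sh)) :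
    MT.down f sh (Fl (lvl f sh) k (τ, y)) = Fl f k (τ, MT.down f sh y) := by
  induction k with
  | zero => rfl
  | succ k ih => rw [Fl_succ, Fl_succ, down_G, ih]

theorem htZ_Fl (f : C(E, E)) (k : ℕ) (τ : ℝ) (y : MT (lvl f sh)) (h0 : 0 ≤ τ) :
    MT.htZ f (Fl (lvl f sh) k (τ, y)) = MT.htZ f y + min τ k := by
  induction k with
  | zero =>
    rw [Fl_zero]
    simp [h0]
  | succ k ih =>
    rw [Fl_succ, htZ_G, ih, coe_cl', add_assoc]
    congr 1
    simp only
    push_cast
    rcases le_total τ k with h | h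
    · rw [min_eq_left h, min_eq_right (by linarith), max_eq_left (by linarith), min_eq_left
        (by linarith), add_zero]
    · rw [min_eq_right h]
      rcases le_total τ (k + 1) with h' | h'
      · rw [min_eq_right (by linarith), max_eq_right (by linarith), min_eq_left h']
        ring
      · rw [min_eq_left (by linarith), max_eq_right (by norm_num), min_eq_right h']

theorem Fl_mk_le (f : C(E, E)) (x : E) (k : ℕ) (N : ℕ) (h : k ≤ N) :
    Fl f k ((N : ℝ), MT.mk f (x, 0)) = MT.mk f (f^[k] x, 0) := by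
  induction k with
  | zero => rfl
  | succ k ih =>
    rw [Fl_succ, ih (by omega)]
    simp only
    rw [cl_of_ge (by have : ((k + 1 : ℕ) : ℝ) ≤ N := by exact_mod_cast h
                     push_cast at this
                     linarith), G_one_mk, Function.iterate_succ', Function.comp]

theorem Fl_mk (f : C(E, E)) (x : E) (k : ℕ) (N : ℕ) :
    Fl f (N + k) ((N : ℝ), MT.mk f (x, 0)) = MT.mk f (f^[N] x, 0) := by
  induction k with
  | zero => exact Fl_mk_le f x N N le_rfl
  | succ k ih =>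
    rw [← add_assoc, Fl_succ, ih]
    simp only
    rw [cl_of_le (by push_cast
                     have : (0 : ℝ) ≤ k := Nat.cast_nonneg k
                     linarith), G_zero]

/-- the inclusion of the fibre at height `N` -/
def io (f : C(E, E)) (N : ℤ) : C(E, MT (lvl f sh)) :=
  ⟨fun x => MT.mk (lvl f sh) ((x, N), 0), by fun_prop⟩

theorem io_apply (f : C(E, E)) (N : ℤ) (x : E) : io f N x = MT.mk (lvl f sh) ((x, N), 0) := rfl

theorem io_inj (f : C(E, E)) (N : ℤ) : Function.Injective (io f N) := by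
  intro x y h
  rw [io_apply, io_apply, MT.mk_eq_iff] at h
  simpa [MTnf] using h

theorem io_surj (f : C(E, E)) (N : ℤ) (y : MT (lvl f sh)) (h : MT.htZ f y = N) :
    ∃ x, io f N x = y := by
  revert y
  refine MT.ind ?_
  rintro ⟨x, n⟩ u h
  rw [MT.htZ_mk] at h
  have hu0 : (0 : ℝ) ≤ u := u.2.1
  have hu1 : (u : ℝ) ≤ 1 := u.2.2
  have hu : (u : ℝ) = ((N - n : ℤ) : ℝ) := by
    push_cast
    linarith
  have h1 : (0 : ℤ) ≤ N - n := by
    have : (0 : ℝ) ≤ ((N - n : ℤ) : ℝ) := by rw [← hu]; exact hu0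
    exact_mod_cast this
  have h2 : N - n ≤ 1 := by
    have : ((N - n : ℤ) : ℝ) ≤ 1 := by rw [← hu]; exact hu1
    exact_mod_cast this
  rcases (show N - n = 0 ∨ N - n = 1 by omega) with h3 | h3
  · have hn : n = N := by omega
    have hu' : u = 0 := by
      apply Subtype.ext
      rw [hu, h3]
      simp
    exact ⟨x, by rw [io_apply, hn, hu']⟩
  · have hn : n + 1 = N := by omega
    have hu' : u = 1 := by
      apply Subtype.ext
      rw [hu, h3]
      simp
    refine ⟨f x, ?_⟩
    rw [io_apply, hu', MT.glue, lvl_apply, sh_apply, hn]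

theorem io_inducing (f : C(E, E)) (N : ℤ) : IsInducing (io f N) := by
  rw [isInducing_iff]
  apply le_antisymm
  · exact continuous_iff_le_induced.mp (io f N).continuous
  · intro U hU
    -- the open set
    have hc : Continuous (fun p : (E × ℤ) × I =>
        (p.1.2 = N ∧ (p.2 : ℝ) < 1 / 2 ∧ p.1.1 ∈ U) ∨
          (p.1.2 = N - 1 ∧ 1 / 2 < (p.2 : ℝ) ∧ f p.1.1 ∈ U)) := by
      have hO : IsOpen {p : (E × ℤ) × I | (p.1.2 = N ∧ (p.2 : ℝ) < 1 / 2 ∧ p.1.1 ∈ U) ∨
          (p.1.2 = N - 1 ∧ 1 / 2 < (p.2 : ℝ) ∧ f p.1.1 ∈ U)} := by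
        apply IsOpen.union
        · apply IsOpen.inter
          · exact (isOpen_discrete {N}).preimage (continuous_snd.comp continuous_fst)
          · apply IsOpen.inter
            · exact isOpen_lt (continuous_subtype_val.comp continuous_snd) continuous_const
            · exact hU.preimage (continuous_fst.comp continuous_fst)
        · apply IsOpen.inter
          · exact (isOpen_discrete {N - 1}).preimage (continuous_snd.comp continuous_fst)
          · apply IsOpen.inter
            · exact isOpen_lt continuous_const (continuous_subtype_val.comp continuous_snd)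
            · exact hU.preimage (f.continuous.comp (continuous_fst.comp continuous_fst))
      exact isOpen_iff_continuous_mem.mp hO
    let g : C((E × ℤ) × I, Prop) := ⟨_, hc⟩
    let W : C(MT (lvl f sh), Prop) := MT.lift g (by
      rintro ⟨x, n⟩
      simp only [g, lvl_apply, sh_apply, ContinuousMap.coe_mk, Set.Icc.coe_one, Set.Icc.coe_zero,
        eq_iff_iff]
      constructor
      · rintro (⟨-, h, -⟩ | ⟨h1, -, h3⟩)
        · norm_num at h
        · exact Or.inl ⟨by omega, by norm_num, h3⟩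
      · rintro (⟨h1, -, h3⟩ | ⟨-, h, -⟩)
        · exact Or.inr ⟨by omega, by norm_num, h3⟩
        · norm_num at h)
    refine ⟨{y | W y}, isOpen_iff_continuous_mem.mpr W.continuous, ?_⟩
    ext x
    simp only [Set.mem_preimage, Set.mem_ofPred_eq, io_apply, W, MT.lift_mk, g,
      ContinuousMap.coe_mk, Set.Icc.coe_zero]
    constructor
    · rintro (⟨-, -, h⟩ | ⟨-, h, -⟩)
      · exact h
      · norm_num at h
    · intro h
      exact Or.inl ⟨trivial, by norm_num, h⟩

/-- Square lemma: a map of a square gives a homotopy of the sides. -/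
theorem square {X : Type} [TopologicalSpace X] (H : C(I × I, X)) {a b : X}
    (α : Path a a) (β : Path b b) (c : Path a b) (h0 : ∀ s, H (0, s) = α s)
    (h1 : ∀ s, H (1, s) = β s) (hl : ∀ t, H (t, 0) = c t) (hr : ∀ t, H (t, 1) = c t) :
    (α.trans c).Homotopic (c.trans β) := by
  let f0 : C(I, X) := ⟨fun s => H (0, s), by fun_prop⟩
  let f1 : C(I, X) := ⟨fun s => H (1, s), by fun_prop⟩
  let F : f0.Homotopy f1 := ⟨H, fun _ => rfl, fun _ => rfl⟩
  have key := (Path.Homotopic.map_trans_evalAt F Path.id).pathCast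
    (show a = f0 0 from by change a = H (0, 0); rw [h0]; simp)
    (show b = f1 1 from by change b = H (1, 1); rw [h1]; simp)
  refine Path.Homotopic.trans (Path.Homotopic.trans ?_ key) ?_
  · refine ⟨Path.Homotopy.cast (Path.Homotopy.refl _) rfl ?_⟩
    ext s
    simp only [Path.trans_apply, Path.cast_coe]
    split_ifs with h
    · exact (h0 _).symm
    · exact (hr _).symm
  · refine ⟨Path.Homotopy.cast (Path.Homotopy.refl _) rfl ?_⟩
    ext s
    simp only [Path.trans_apply, Path.cast_coe]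
    split_ifs with h
    · exact hl _
    · exact h1 _

/-- Cancellation. -/
theorem cancel {X : Type} [TopologicalSpace X] {a b : X} (α ε : Path a a) (c : Path a b)
    (h : (α.trans c).Homotopic (ε.trans c)) : α.Homotopic ε := by
  have red : ∀ p : Path a a, ((p.trans c).trans c.symm).Homotopic p := fun p =>
    ((Path.Homotopic.trans ⟨Path.Homotopy.transAssoc p c c.symm⟩
      ((Path.Homotopic.refl p).hcomp ⟨(Path.Homotopy.reflTransSymm c).symm⟩))).trans
        ⟨Path.Homotopy.transRefl p⟩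
  exact ((red α).symm.trans (h.hcomp (Path.Homotopic.refl c.symm))).trans (red ε)

theorem main : S_kerZ := by
  intro K E _ _ j f hj hpush k0 γ γ' hγ
  -- bound the height
  obtain ⟨B, hB⟩ : ∃ B : ℝ, ∀ s : I, |MT.htZ f (γ' s)| ≤ B := by
    have hc : Continuous fun s : I => |MT.htZ f (γ' s)| := by fun_prop
    obtain ⟨s0, -, hs0⟩ := isCompact_univ.exists_isMaxOn (Set.univ_nonempty) hc.continuousOn
    exact ⟨_, fun s => hs0 (Set.mem_univ s)⟩
  obtain ⟨N, hN⟩ := exists_nat_ge B
  have hb : ∀ s : I, |MT.htZ f (γ' s)| ≤ N := fun s => (hB s).trans hN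
  have iter_j : ∀ (n : ℕ) (k : K), f^[n] (j k) = j k := by
    intro n k
    exact Function.iterate_fixed (hj k) n
  have iter_lvl : ∀ (n : ℕ) (k : K), (lvl f sh)^[n] (j k, 0) = (j k, (n : ℤ)) := by
    intro n k
    induction n with
    | zero => rfl
    | succ n ih =>
      rw [Function.iterate_succ', Function.comp, ih, lvl_apply, hj, sh_apply]
      simp
  -- the homotopy upstairs
  let H' : C(I × I, MT (lvl f sh)) := ⟨fun p => Fl (lvl f sh) (N + N)
    ((p.1 : ℝ) * ((N : ℝ) - MT.htZ f (γ' p.2)), γ' p.2), by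
      exact (Fl (lvl f sh) (N + N)).continuous.comp (Continuous.prodMk (by fun_prop)
        (by fun_prop))⟩
  have H'_apply : ∀ t s, H' (t, s) = Fl (lvl f sh) (N + N)
    ((t : ℝ) * ((N : ℝ) - MT.htZ f (γ' s)), γ' s) := fun _ _ => rfl
  have hht : ∀ s, MT.htZ f (H' (1, s)) = ((N : ℤ) : ℝ) := by
    intro s
    have h1 := abs_le.mp (hb s)
    rw [H'_apply, htZ_Fl _ _ _ _ (by
      rw [Set.Icc.coe_one, one_mul]
      linarith), Set.Icc.coe_one, one_mul, min_eq_left (by push_cast; linarith)]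
    push_cast
    ring
  choose sg0 hsg0 using fun s => io_surj f N (H' (1, s)) (hht s)
  have hsgc : Continuous sg0 := by
    rw [(io_inducing f N).continuous_iff]
    have : (⇑(io f N) ∘ sg0) = fun s => H' (1, s) := funext hsg0
    rw [this]
    fun_prop
  have hend : ∀ s : I, γ' s = MT.mk (lvl f sh) ((j k0, 0), 0) → sg0 s = j k0 := by
    intro s hs
    apply io_inj f N
    rw [hsg0, H'_apply, hs, MT.htZ_mk, Set.Icc.coe_one, one_mul, Set.Icc.coe_zero, Int.cast_zero,
      add_zero, sub_zero, Fl_mk, iter_lvl]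
    rfl
  let sg : Path (j k0) (j k0) := ⟨⟨sg0, hsgc⟩, hend 0 γ'.source, hend 1 γ'.target⟩
  obtain ⟨δ, hδ⟩ := hpush k0 k0 sg
  refine ⟨δ, ?_⟩
  let J : C(E, MT f) := ⟨fun x => MT.mk f (x, 0), by fun_prop⟩
  let c : Path (MT.mk f (j k0, 0)) (MT.mk f (j k0, 0)) :=
    ⟨⟨fun t => Fl f (N + N) ((t : ℝ) * N, MT.mk f (j k0, 0)), by
      exact (Fl f (N + N)).continuous.comp (Continuous.prodMk (by fun_prop) (by fun_prop))⟩, by
      change Fl f (N + N) (((0 : I) : ℝ) * N, MT.mk f (j k0, 0)) = _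
      rw [Set.Icc.coe_zero, zero_mul, Fl_time_zero], by
      change Fl f (N + N) (((1 : I) : ℝ) * N, MT.mk f (j k0, 0)) = _
      rw [Set.Icc.coe_one, one_mul, Fl_mk, iter_j]⟩
  have c_apply : ∀ t, c t = Fl f (N + N) ((t : ℝ) * N, MT.mk f (j k0, 0)) := fun _ => rfl
  let β : Path (MT.mk f (j k0, 0)) (MT.mk f (j k0, 0)) := sg.map J.continuous
  let ε : Path (MT.mk f (j k0, 0)) (MT.mk f (j k0, 0)) := (δ.map j.continuous).map J.continuous
  have hβε : β.Homotopic ε := hδ.map J
  have hendc : ∀ s : I, γ' s = MT.mk (lvl f sh) ((j k0, 0), 0) → ∀ t,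
      MT.down f sh (H' (t, s)) = c t := by
    intro s hs t
    rw [H'_apply, down_Fl, c_apply, hs, MT.htZ_mk, MT.down_mk, Set.Icc.coe_zero, Int.cast_zero,
      add_zero, sub_zero]
  have h1 : (γ.trans c).Homotopic (c.trans β) := by
    refine square ((MT.down f sh).comp H') γ β c ?_ ?_ ?_ ?_
    · intro s
      change MT.down f sh (H' (0, s)) = _
      rw [H'_apply, Set.Icc.coe_zero, zero_mul, Fl_time_zero, hγ]
    · intro s
      change MT.down f sh (H' (1, s)) = MT.mk f (sg0 s, 0)
      rw [← hsg0, io_apply, MT.down_mk]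
    · exact hendc 0 γ'.source
    · exact hendc 1 γ'.target
  have h2 : (ε.trans c).Homotopic (c.trans ε) := by
    refine square ⟨fun p => Fl f (N + N) ((p.1 : ℝ) * N, MT.mk f (j (δ p.2), 0)), by
      exact (Fl f (N + N)).continuous.comp (Continuous.prodMk (by fun_prop) (by fun_prop))⟩
      ε ε c ?_ ?_ ?_ ?_
    · intro s
      change Fl f (N + N) (((0 : I) : ℝ) * N, MT.mk f (j (δ s), 0)) = MT.mk f (j (δ s), 0)
      rw [Set.Icc.coe_zero, zero_mul, Fl_time_zero]
    · intro s
      change Fl f (N + N) (((1 : I) : ℝ) * N, MT.mk f (j (δ s), 0)) = MT.mk f (j (δ s), 0)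
      rw [Set.Icc.coe_one, one_mul, Fl_mk, iter_j]
    · intro t
      change Fl f (N + N) ((t : ℝ) * N, MT.mk f (j (δ 0), 0)) = _
      rw [δ.source, c_apply]
    · intro t
      change Fl f (N + N) ((t : ℝ) * N, MT.mk f (j (δ 1), 0)) = _
      rw [δ.target, c_apply]
  have h3 : (γ.trans c).Homotopic (ε.trans c) :=
    (h1.trans ((Path.Homotopic.refl c).hcomp hβε)).trans h2.symm
  exact cancel γ ε c h3

end

end Pool.Agent.W930.SC.KerZ
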